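import Mathlib
import Pool.Agent.Helper18.Lem.Box2

/-!
The number of odd integers `n = p + 2 q` with primes `p ≤ U`, `q ≤ V`, uniformly in the box.
-/

namespace Pool.Agent.Results.MP_662920_nt.BoxCount

/-- The number of odd `n` of the form `n = p + 2 q` with primes `p ≤ U`, `q ≤ V`. -/
noncomputable def N (U V : ℕ) : ℕ :=
  {n : ℕ | Odd n ∧ ∃ p q : ℕ, p.Prime ∧ q.Prime ∧ p ≤ U ∧ q ≤ V ∧ n = p + 2 * q}.ncard

/-- There is `C > 0` such that for all `U, V ≥ 3`, with `A = (π(U) - 1) π(V)` (the number of pairs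
of an odd prime `p ≤ U` and a prime `q ≤ V`),
`A / (1 + C A / max(U, V)) ≤ N(U, V) ≤ min (A, U + 2 V)`. -/
theorem result : ∃ C : ℝ, 0 < C ∧ ∀ U V : ℕ, 3 ≤ U → 3 ≤ V →
    ((Nat.primeCounting U : ℝ) - 1) * Nat.primeCounting V /
      (1 + C * (((Nat.primeCounting U : ℝ) - 1) * Nat.primeCounting V / max (U : ℝ) V)) ≤ N U V ∧
    (N U V : ℝ) ≤ ((Nat.primeCounting U : ℝ) - 1) * Nat.primeCounting V ∧
    (N U V : ℝ) ≤ U + 2 * V := by
  obtain ⟨C, hC, h⟩ := Pool.Agent.Helper18.Lem.box2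
  refine ⟨C, hC, ?_⟩
  intro U V hU hV
  have hset : {n : ℕ | Odd n ∧ ∃ p q : ℕ, p.Prime ∧ q.Prime ∧ p ≤ U ∧ q ≤ V ∧ n = p + 2 * q} =
      ((Pool.Agent.Helper18.Lem.reps U V : Finset ℕ) : Set ℕ) := by
    ext n
    simp only [Set.mem_setOf_eq, Pool.Agent.Helper18.Lem.reps, Pool.Agent.Helper18.Lem.prs,
      Finset.coe_image, Set.mem_image, Finset.mem_coe, Finset.mem_filter, Finset.mem_product,
      Finset.mem_Icc, Prod.exists]
    constructor
    · rintro ⟨hn, p, q, hp, hq, hpU, hqV, rfl⟩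
      have hpo : Odd p := by
        rcases Nat.even_or_odd p with h1 | h1
        · exfalso
          exact (Nat.not_even_iff_odd.mpr hn) (h1.add (even_two_mul q))
        · exact h1
      exact ⟨p, q, ⟨⟨⟨hp.pos, hpU⟩, hq.pos, hqV⟩, hp, hpo, hq⟩, rfl⟩
    · rintro ⟨p, q, ⟨⟨⟨_, hpU⟩, _, hqV⟩, hp, hpo, hq⟩, rfl⟩
      exact ⟨hpo.add_even (even_two_mul q), p, q, hp, hq, hpU, hqV, rfl⟩
  have hN : N U V = (Pool.Agent.Helper18.Lem.reps U V).card := by
    unfold N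
    rw [hset, Set.ncard_coe_finset]
  rw [hN]
  exact h U V hU hV

end Pool.Agent.Results.MP_662920_nt.BoxCount
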