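import Mathlib
import Pool.Agent.Helper18.Lem.Abund

/-!
Odd numbers all of whose Lemoine representations `n = p + 2 q` use only large primes.
-/

namespace Pool.Agent.Results.MP_662920_nt.LeastPrimes

/-- `G(N) = log N (log log N)^2 log log log log N / (log log log N)^2`. -/
noncomputable def G (N : ℕ) : ℝ :=
  Real.log N * Real.log (Real.log N) ^ 2 * Real.log (Real.log (Real.log (Real.log N))) /
    Real.log (Real.log (Real.log N)) ^ 2

/-- For every `ε > 0` there is `c > 0` such that for all large `N` there are at least `N^(1-ε)`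
odd numbers `n ≤ N` such that in every representation `n = p + 2 q` with primes `p`, `q` both
primes exceed `c G(N)`. -/
theorem result : ∀ ε : ℝ, 0 < ε → ∃ c : ℝ, 0 < c ∧ ∃ N₀ : ℕ, ∀ N ≥ N₀,
    (N : ℝ) ^ (1 - ε) ≤ ({n : ℕ | n ≤ N ∧ Odd n ∧ ∀ p q : ℕ, p.Prime → q.Prime → n = p + 2 * q →
      c * G N < p ∧ c * G N < q}.ncard : ℝ) := by
  intro ε hε
  obtain ⟨c, hc, h⟩ := Pool.Agent.Helper18.Lem.large_least ε hε
  obtain ⟨N₀, hN₀⟩ := Filter.eventually_atTop.mp h
  exact ⟨c, hc, N₀, fun N hN => hN₀ N hN⟩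

end Pool.Agent.Results.MP_662920_nt.LeastPrimes
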